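import Mathlib
import Pool.Agent.TH994.CC.Dom

set_option autoImplicit false

namespace Pool.Agent.Results.MP_6bbf11_lc.DominationHypothesis

open Cardinal Set Order Pool.Agent.TH994.CC

/-- **Chang sets whose trace on `κ⁺` has any prescribed regular cofinality `≤ κ`, under a domination
hypothesis on functions `κ⁺ → κ⁺` (e.g. `2^(κ⁺) = κ⁺⁺`).** -/
theorem result :
    -- (1) prescribed cofinality of the trace
    (∀ κ : Cardinal.{0}, ℵ₀ ≤ κ → Dominated κ →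
      (∀ f, Maps (succ (succ (succ κ))) f → ∃ X, ChangSet κ X ∧ ClosedUnder f X) →
      ∀ μ : Cardinal.{0}, μ.IsRegular → μ ≤ κ → ∀ f, Maps (succ (succ (succ κ))) f →
        ∃ X δ, ChangSet κ X ∧ ClosedUnder f X ∧ X ∩ Iio (succ κ).ord = Iio δ ∧
          Ordinal.cof δ = μ) ∧
    -- (2) in particular the question, for uncountable regular `κ`
    (∀ κ : Cardinal.{0}, κ.IsRegular → ℵ₀ < κ → Dominated κ →
      (∀ f, Maps (succ (succ (succ κ))) f → ∃ X, ChangSet κ X ∧ ClosedUnder f X) →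
      ∀ f, Maps (succ (succ (succ κ))) f → ∃ X, ChangSet κ X ∧ ClosedUnder f X ∧
        ℵ₀ < Ordinal.cof (sSup (X ∩ Iio (succ κ).ord))) ∧
    -- (3) the hypothesis holds when `2^(κ⁺) = κ⁺⁺`
    (∀ κ : Cardinal.{0}, ℵ₀ ≤ κ → (2 : Cardinal.{0}) ^ (succ κ) = succ (succ κ) → Dominated κ) ∧
    -- (4) the hypothesis holds when `κ⁺⁺` functions dominate all functions `κ⁺ → κ⁺`
    (∀ κ : Cardinal.{0}, (∃ h : Ordinal.{0} → Ordinal.{0} → Ordinal.{0},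
      (∀ i < (succ (succ κ)).ord, ∀ ξ < (succ κ).ord, h i ξ < (succ κ).ord) ∧
      ∀ g : Ordinal.{0} → Ordinal.{0}, (∀ ξ < (succ κ).ord, g ξ < (succ κ).ord) →
        ∃ i < (succ (succ κ)).ord, ∃ η < (succ κ).ord, ∀ ξ < (succ κ).ord, η ≤ ξ → g ξ ≤ h i ξ) →
      Dominated κ) ∧
    -- (5) the hypothesis holds when any `κ⁺⁺⁺` functions `κ⁺ → κ⁺` are dominated by a single one
    (∀ κ : Cardinal.{0}, (∀ g : Ordinal.{0} → Ordinal.{0} → Ordinal.{0},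
      (∀ a < (succ (succ (succ κ))).ord, ∀ ξ < (succ κ).ord, g a ξ < (succ κ).ord) →
      ∃ h : Ordinal.{0} → Ordinal.{0}, (∀ ξ < (succ κ).ord, h ξ < (succ κ).ord) ∧
        ∀ a < (succ (succ (succ κ))).ord, ∃ η < (succ κ).ord,
          ∀ ξ < (succ κ).ord, η ≤ ξ → g a ξ ≤ h ξ) →
      Dominated κ) := by
  refine ⟨fun κ hκ hD hC μ hμ hμκ f hf => main κ hκ hD hC μ hμ hμκ f hf, ?_,
    fun κ hκ h => dominated_of_pow κ hκ h, ?_, ?_⟩
  · intro κ hκ hκ0 hD hC f hf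
    obtain ⟨X, δ, hX, hXf, hXδ, hδ⟩ := main κ hκ0.le hD hC κ hκ le_rfl f hf
    refine ⟨X, hX, hXf, ?_⟩
    have hlim : IsSuccLimit δ := Ordinal.one_lt_cof_iff.1 (by rw [hδ]; exact one_lt_aleph0.trans hκ0)
    rw [hXδ, hlim.sSup_Iio, hδ]
    exact hκ0
  · rintro κ ⟨h, hh1, hh2⟩ g hg
    exact ⟨h, hh1, fun a ha => hh2 (g a) (hg a ha)⟩
  · intro κ hb g hg
    obtain ⟨h, hh1, hh2⟩ := hb g hg
    refine ⟨fun _ => h, fun _ _ => hh1, fun a ha => ⟨0, ?_, hh2 a ha⟩⟩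
    rw [lt_ord, Ordinal.card_zero]
    exact lt_of_le_of_lt zero_le (lt_succ _)

end Pool.Agent.Results.MP_6bbf11_lc.DominationHypothesis
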